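import Pool.Agent.Helper26K1.Het.Metric

/-!
# A diffeomorphism for which no invariant measure satisfies the entropy formula

There are a real-analytic diffeomorphism `f` of the 2-torus `S¹ × S¹` and a constant `c > 0` such that
`h(ρ) + c ≤ ∫ χ₊ dρ` for every `f`-invariant Borel probability measure `ρ`, where `h` is the
Kolmogorov-Sinai entropy and `χ₊(x)` the sum of the positive characteristic exponents at `x`, with
multiplicities. In particular the maximum of `h(ρ) - ∫ χ₊ dρ` over the invariant probability
measures is not `0`: the answer to Q1 of `MP_794bd6_an` is negative.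

The definitions are in `Pool.Agent.Helper26K1.Het.Defs`: `IsChiPlus I g f x a` says that the tangent
space at `x` has an Oseledets splitting for the diffeomorphism `f` (with the lengths of tangent vectors
measured by the Riemannian metric `g`) and that `a` is the sum of the positive exponents; `ksEntropy`
is the Kolmogorov-Sinai entropy. The result holds for every Riemannian metric `g`.

The map. `f = C ∘ B ∘ A` with `A (z, w) = (m_r z, w)`, `r = - Re w / 10`, `B (z, w) = (z, m_r w)`,
`r = Re z / 10`, where `m_r z = (z + r) / (1 + r z)`, and `C (z, w) = (z, u / |u|)`,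
`u = (11/10) Re w + i Im w`. The circles `z = ± 1`, `w = ± 1` are invariant and form heteroclinic cycles
around the four open cells of their complement. The function `(Im z Im w)²` strictly decreases along
the orbits in the cells, except at the four centres `(± i, ± i)`, so that these orbits spiral to the
cycles. Hence every invariant probability measure is carried by the eight fixed points
`(± 1, ± 1)`, `(± i, ± i)`: it has zero entropy. The first four are hyperbolic saddles, the others are
sources, so that `χ₊ > 0` at each of them.
-/

set_option autoImplicit false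

open MeasureTheory
open scoped Manifold ContDiff
open Pool.Agent.Helper26K1.Pesin

namespace Pool.Agent.Results.MP_794bd6_an.HeteroclinicTorus

/-- There are a closed real-analytic surface `M` (homeomorphic to the torus), a real-analytic
diffeomorphism `f` of `M` and `c > 0` such that `h(ρ) + c ≤ ∫ χ₊ dρ` for every `f`-invariant Borel
probability measure `ρ` on `M` (and every Riemannian metric on `M`). -/
theorem result :
    ∃ (E : Type) (_ : NormedAddCommGroup E) (_ : NormedSpace ℝ E) (H : Type)
      (_ : TopologicalSpace H) (I : ModelWithCorners ℝ E H) (M : Type) (_ : TopologicalSpace M)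
      (_ : ChartedSpace H M) (_ : MeasurableSpace M) (_ : BorelSpace M)
      (f : Diffeomorph I I M M ω) (c : ℝ),
      -- `M` is a closed real-analytic surface
      (Module.finrank ℝ E = 2 ∧ I.Boundaryless ∧ IsManifold I ω M ∧ CompactSpace M ∧
        T2Space M ∧ Nonempty (M ≃ₜ Circle × Circle) ∧
        Nonempty (Bundle.RiemannianMetric (fun x : M => TangentSpace I x))) ∧
      -- the entropy of every invariant measure is smaller than the integral of `χ₊`
      0 < c ∧ EntropyGap f c := by
  have hc : 0 < Real.log (11 / 10) / 2 := by
    have := Real.log_pos (show (1 : ℝ) < 11 / 10 by norm_num)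
    linarith
  let _ : MeasurableSpace (Circle × Circle) := borel _
  have _ : BorelSpace (Circle × Circle) := ⟨rfl⟩
  refine ⟨EuclideanSpace ℝ (Fin 1) × EuclideanSpace ℝ (Fin 1), inferInstance, inferInstance,
    ModelProd (EuclideanSpace ℝ (Fin 1)) (EuclideanSpace ℝ (Fin 1)), inferInstance,
    (𝓡 1).prod (𝓡 1), Circle × Circle, inferInstance, inferInstance, borel _, ⟨rfl⟩,
    Pool.Agent.Helper26K1.Het.F, Real.log (11 / 10) / 2,
    ⟨by simp, inferInstance, inferInstance, inferInstance, inferInstance, ⟨Homeomorph.refl _⟩,
      ⟨Pool.Agent.Helper26K1.Het.gT⟩⟩, hc, ?_⟩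
  intro g ρ _ hρ
  obtain ⟨h1, h2, h3⟩ := Pool.Agent.Helper26K1.Het.main g ρ hρ
  refine ⟨h2, fun χ hχ => ?_⟩
  obtain ⟨h4, h5⟩ := h3 χ hχ
  refine ⟨h4, ?_⟩
  rw [h1, zero_add]
  exact_mod_cast h5

end Pool.Agent.Results.MP_794bd6_an.HeteroclinicTorus
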